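import Pool.Agent.ZRT.StmtsA
import Pool.Agent.Helper26_MVS.BR2

noncomputable section

open scoped ContDiff Topology RealInnerProductSpace
set_option maxSynthPendingDepth 3
open Set MeasureTheory

namespace Pool.Agent.ZRT.H81

open Pool.Agent.ZRT Pool.Agent.RF Pool.Agent.MVS Pool.Agent.SecondKind Pool.Agent.MinVolSphere
open Pool.Agent.MVS.H26 (christoffel_congr riemV_congr tangent_of)

/-- curvature and area of the slice in coordinates -/
theorem coords (par : ParStatement) {g : Form 4} {G : E5 → Bil E5} (hG : IsCyl G)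
    (hGg : ∀ x v w : Fin 5 → ℝ, Tangent x v → Tangent x w → G (vc x) (vc v) (vc w) = g x v w)
    {x : E5} (hx1 : ‖x‖ = 1) {v w : E5} (hv : ⟪x, v⟫ = (0 : ℝ))
    (hw : ⟪x, w⟫ = (0 : ℝ)) :
    ∃ (U : Set (Fin 4 → ℝ)) (ψ : (Fin 4 → ℝ) → Fin 5 → ℝ) (_ : IsParam U ψ) (y : Fin 4 → ℝ)
      (_ : y ∈ U) (a c : Fin 4 → ℝ), riemV (comp g ψ) y a c c a = G x (riem G x v w w) v ∧
      area2 (comp g ψ) y a c = G x v v * G x w w - G x v w ^ 2 := by
  have hsum : ∑ i, x i ^ 2 = 1 := by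
    rw [← EuclideanSpace.real_norm_sq_eq, hx1]; norm_num
  obtain ⟨U, ψ, y, -, -, hψ, hy, hyx, -, -, -, -, hsurj⟩ := par (fun i => x i) hsum
  have inn : ∀ u : E5, ⟪x, u⟫ = ∑ i, x i * u i := fun u => by
    rw [PiLp.inner_apply]
    exact Finset.sum_congr rfl fun i _ => by simp [mul_comm]
  obtain ⟨a, ha⟩ := hsurj y hy (fun i => v i) (by rw [hyx, ← inn]; exact hv)
  obtain ⟨c, hc⟩ := hsurj y hy (fun i => w i) (by rw [hyx, ← inn]; exact hw)
  obtain ⟨hM, hS⟩ := H5.slice_star chrStatement (ι := Fin 5) (κ := Fin 4) (by simp)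
    hG (IsParam.open' hψ) (IsParam.smooth' H38.sg hψ) (IsParam.norm' H38.sg hψ)
    (IsParam.inj' H38.sg hψ)
  have hcomp : ∀ z ∈ U, comp g ψ z = mat (pullb G (psE H38.sg ψ)) z := by
    intro z hz
    rw [← comp_toForm]
    funext i j
    unfold comp toForm
    exact (hGg _ _ _ (tangent_of (G := G) hψ hz _) (tangent_of (G := G) hψ hz _)).symm
  have hxm : (eqE 4).symm y ∈ eqE 4 ⁻¹' U := mem_pre hy
  have hyx' : eqE 4 ((eqE 4).symm y) = y := ContinuousLinearEquiv.apply_symm_apply _ _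
  have hpx : psE H38.sg ψ ((eqE 4).symm y) = x := by
    unfold psE
    rw [hyx', hyx]
    rfl
  have hDa : fderiv ℝ (psE H38.sg ψ) ((eqE 4).symm y) (vec a) = v := by
    rw [fderiv_psE, hyx']
    unfold vec
    rw [ContinuousLinearEquiv.apply_symm_apply, ha]
    rfl
  have hDc : fderiv ℝ (psE H38.sg ψ) ((eqE 4).symm y) (vec c) = w := by
    rw [fderiv_psE, hyx']
    unfold vec
    rw [ContinuousLinearEquiv.apply_symm_apply, hc]
    rfl
  refine ⟨U, ψ, hψ, y, hy, a, c, ?_, ?_⟩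
  · rw [riemV_congr hψ.isOpen hcomp hy]
    conv_lhs => rw [← hyx']
    rw [riemV_mat hM hxm, pullb_apply]
    have hn := H5.nat chrStatement (Fin 5) (Fin 4) _ G (psE H38.sg ψ) _ (Om (Fin 5)) hM
      hG.metric (IsParam.smooth' H38.sg hψ) (IsParam.maps' H38.sg hψ) hS _ hxm
      (vec a) (vec c) (vec c)
    rw [hn, hDa, hDc, hpx]
  · have hA : ∀ u v : Fin 4 → ℝ, ∑ p, ∑ q, u p * v q * comp g ψ y p q =
        pullb G (psE H38.sg ψ) ((eqE 4).symm y) (vec u) (vec v) := by
      intro u v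
      have h1 := bil_vec (b := pullb G (psE H38.sg ψ)) ((eqE 4).symm y) u v
      rw [hyx', ← hcomp y hy] at h1
      exact h1.symm
    unfold area2
    rw [hA, hA, hA]
    simp only [pullb_apply, hDa, hDc, hpx]

/-- the part `v' ∧ w'` orthogonal to the radial direction: same curvature, smaller area -/
theorem reduce {G : E5 → Bil E5} (hG : IsCyl G) {x : E5} (hx1 : ‖x‖ = 1) (v w : E5) :
    ∃ v' w' : E5, ⟪x, v'⟫ = (0 : ℝ) ∧ ⟪x, w'⟫ = (0 : ℝ) ∧
      G x (riem G x v w w) v = G x (riem G x v' w' w') v' ∧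
      G x v' v' * G x w' w' - G x v' w' ^ 2 ≤ G x v v * G x w w - G x v w ^ 2 := by
  have hC := chrStatement
  have hx : x ∈ Om (Fin 5) := by
    rintro rfl
    simp at hx1
  have hM := hG.metric
  obtain ⟨-, r1, r2, -⟩ := H5.cyl hC (Fin 5) G hG x hx
  have r3 : ∀ u z, riem G x u x z = 0 := fun u z => by
    rw [H5.riem_antisymm hC hM hx, r1, neg_zero]
  set l := ⟪x, v⟫ with hl
  set m := ⟪x, w⟫ with hm
  set v' := v - l • x with hv'
  set w' := w - m • x with hw'
  have hxx : ⟪x, x⟫ = (1 : ℝ) := by rw [real_inner_self_eq_norm_sq, hx1]; norm_num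
  have hv0 : ⟪x, v'⟫ = (0 : ℝ) := by rw [hv', inner_sub_right, inner_smul_right, hxx, hl]; ring
  have hw0 : ⟪x, w'⟫ = (0 : ℝ) := by rw [hw', inner_sub_right, inner_smul_right, hxx, hm]; ring
  have ev : v = v' + l • x := by rw [hv']; abel
  have ew : w = w' + m • x := by rw [hw']; abel
  have hR : riem G x v w w = riem G x v' w' w' := by
    rw [ev, ew, H5.riem_add1 hC hM hx, H5.riem_smul1 hC hM hx, r1, smul_zero, add_zero,
      H5.riem_add2 hC hM hx, H5.riem_smul2 hC hM hx, r3, smul_zero, add_zero,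
      H5.riem_add3 hC hM hx, H5.riem_smul3 hC hM hx, r2, smul_zero, add_zero]
  have rad : ∀ u, G x x u = ⟪x, u⟫ := fun u => by
    rw [hG.radial x hx, hx1]; norm_num
  have rad' : ∀ u, G x u x = ⟪x, u⟫ := fun u => by
    rw [hM.symm x hx, rad]
  have hRx : G x (riem G x v' w' w') x = 0 := by
    have hF := H9.chrFacts hC hM
    rw [H9.metric_skew hF hM hx, r2, map_zero]
    simp
  have c1 : G x v v = G x v' v' + l ^ 2 := by
    rw [ev]
    simp only [map_add, map_smul, _root_.add_apply, _root_.smul_apply, smul_eq_mul, rad, rad', hv0,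
      hxx]
    ring
  have c2 : G x w w = G x w' w' + m ^ 2 := by
    rw [ew]
    simp only [map_add, map_smul, _root_.add_apply, _root_.smul_apply, smul_eq_mul, rad, rad', hw0,
      hxx]
    ring
  have c3 : G x v w = G x v' w' + l * m := by
    rw [ev, ew]
    simp only [map_add, map_smul, _root_.add_apply, _root_.smul_apply, smul_eq_mul, rad, rad', hv0,
      hw0, hxx]
    ring
  have c4 : G x (riem G x v w w) v = G x (riem G x v' w' w') v' := by
    rw [hR]
    conv_lhs => rw [ev]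
    rw [map_add, map_smul, hRx]
    simp
  have c5 : 0 ≤ G x (m • v' - l • w') (m • v' - l • w') := by
    by_cases h0 : m • v' - l • w' = 0
    · rw [h0]; simp
    · exact (hM.pos x hx _ h0).le
  have c6 : G x (m • v' - l • w') (m • v' - l • w') =
      m ^ 2 * G x v' v' - 2 * l * m * G x v' w' + l ^ 2 * G x w' w' := by
    simp only [map_sub, map_smul, _root_.sub_apply, _root_.smul_apply, smul_eq_mul]
    rw [hM.symm x hx w' v']
    ring
  refine ⟨v', w', hv0, hw0, c4, ?_⟩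
  rw [c1, c2, c3]
  rw [c6] at c5
  nlinarith [c5]

/-- **YB2** -/
theorem yb2 (par : ParStatement) : Yb2Statement := by
  intro g G hg hG hGg hs
  have hC := chrStatement
  have unit : ∀ x : E5, ‖x‖ = 1 → ∀ v w : E5,
      |G x (riem G x v w w) v| ≤ G x v v * G x w w - G x v w ^ 2 := by
    intro x hx1 v w
    obtain ⟨v', w', hv0, hw0, c4, hle⟩ := reduce hG hx1 v w
    obtain ⟨U, ψ, hψ, y, hy, a, c, h1, h2⟩ := coords par hG hGg hx1 hv0 hw0
    have key := hs U ψ hψ y hy a c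
    rw [h1, h2] at key
    rw [c4]
    exact key.trans hle
  have all : ∀ x ∈ Om (Fin 5), ∀ v w : E5,
      |G x (riem G x v w w) v| ≤ G x v v * G x w w - G x v w ^ 2 := by
    intro x hx v w
    have hn : 0 < ‖x‖ := norm_pos_iff.2 hx
    set ξ := ‖x‖⁻¹ • x with hξ
    have hξ1 : ‖ξ‖ = 1 := by
      rw [hξ, norm_smul, norm_inv, norm_norm]
      exact inv_mul_cancel₀ hn.ne'
    have hξ0 : ξ ∈ Om (Fin 5) := by
      intro h0
      rw [h0, norm_zero] at hξ1
      exact zero_ne_one hξ1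
    have hx2 : x = ‖x‖ • ξ := by
      rw [hξ, smul_smul, mul_inv_cancel₀ hn.ne', one_smul]
    have e1 : G x = (‖x‖ ^ 2)⁻¹ • G ξ := by
      conv_lhs => rw [hx2]
      exact hG.homog _ hn _ hξ0
    have e2 : riem G x v w w = (‖x‖ ^ 2)⁻¹ • riem G ξ v w w := by
      conv_lhs => rw [hx2]
      exact H5.cyl_riem_hom hC hG hξ0 hn v w w
    have u1 := unit ξ hξ1 v w
    rw [e2, e1]
    simp only [map_smul, _root_.smul_apply, smul_eq_mul]
    have h4 : 0 ≤ (‖x‖ ^ 2)⁻¹ := by positivity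
    rw [abs_mul, abs_mul, abs_of_nonneg h4]
    nlinarith [mul_le_mul_of_nonneg_left u1 (mul_nonneg h4 h4)]
  refine ⟨fun x hx v w => (abs_le.mp (all x hx v w)).2, fun x hx v w => ?_⟩
  exact (abs_le.mp (all x hx v w)).1

end Pool.Agent.ZRT.H81
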