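import Pool.Agent.ZRT.StmtsA

noncomputable section

open scoped ContDiff Topology RealInnerProductSpace
open Set MeasureTheory

namespace Pool.Agent.ZRT.H81

open Pool.Agent.ZRT Pool.Agent.RF Pool.Agent.MVS Pool.Agent.SecondKind Pool.Agent.MinVolSphere

theorem circ_add (a b t : ℝ) (x y : Fin 5 → ℝ) :
    circ a b t (x + y) = circ a b t x + circ a b t y := by
  funext i
  fin_cases i <;> simp [circ] <;> ring

theorem circ_smul (a b t c : ℝ) (x : Fin 5 → ℝ) : circ a b t (c • x) = c • circ a b t x := by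
  funext i
  fin_cases i <;> simp [circ] <;> ring

/-- the rotation as a continuous linear map -/
def circL (a b t : ℝ) : (Fin 5 → ℝ) →L[ℝ] (Fin 5 → ℝ) :=
  LinearMap.toContinuousLinearMap
    { toFun := circ a b t
      map_add' := circ_add a b t
      map_smul' := circ_smul a b t }

theorem circL_eq (a b t : ℝ) : circ a b t = ⇑(circL a b t) := rfl

theorem fderiv_circ (a b t : ℝ) (x v : Fin 5 → ℝ) : fderiv ℝ (circ a b t) x v = circ a b t v := by
  rw [circL_eq, ContinuousLinearMap.fderiv]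

theorem circ_inv (a b : ℝ) (x : Fin 5 → ℝ) : circ a b 1 (circ (-a) (-b) 1 x) = x := by
  have ha := Real.sin_sq_add_cos_sq a
  have hb := Real.sin_sq_add_cos_sq b
  funext i
  fin_cases i <;> simp [circ]
  · linear_combination (x 0) * ha
  · linear_combination (x 1) * ha
  · linear_combination (x 2) * hb
  · linear_combination (x 3) * hb

theorem sphere_circ (a b : ℝ) (x : Fin 5 → ℝ) :
    ∑ i, circ a b 1 x i ^ 2 = ∑ i, x i ^ 2 := by
  have ha := Real.sin_sq_add_cos_sq a
  have hb := Real.sin_sq_add_cos_sq b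
  rw [Fin.sum_univ_five, Fin.sum_univ_five]
  simp [circ]
  linear_combination (x 0 ^ 2 + x 1 ^ 2) * ha + (x 2 ^ 2 + x 3 ^ 2) * hb

theorem iso_circ {g : Form 4} {α β : ℝ} (hi : RotInvariant α β g) : IsIso g (circ α β 1) where
  smooth := by
    rw [circL_eq]
    exact (circL α β 1).contDiff.contDiffOn
  maps := fun x hx => by
    unfold OnSphere at hx ⊢
    rw [sphere_circ, hx]
  pres := fun x _ v w hv hw => by
    rw [fderiv_circ, fderiv_circ]
    exact hi x v w hv hw

section pole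

variable {g : Form 4} {s : ℝ}

theorem onSphere_pole (hs : s = 1 ∨ s = -1) :
    OnSphere (![0, 0, 0, 0, s] : Fin 5 → ℝ) := by
  unfold OnSphere
  rw [Fin.sum_univ_five]
  rcases hs with rfl | rfl <;> simp

theorem tangent_pole (hs : s = 1 ∨ s = -1) (v : Fin 5 → ℝ) :
    Tangent (![0, 0, 0, 0, s] : Fin 5 → ℝ) v ↔ v 4 = 0 := by
  unfold Tangent
  rw [Fin.sum_univ_five]
  constructor
  · rintro ⟨-, h⟩
    rcases hs with rfl | rfl <;> simpa using h
  · intro h
    refine ⟨onSphere_pole hs, ?_⟩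
    simp [h]

theorem addr (hg : IsMetric g) {p u v w : Fin 5 → ℝ} (hu : Tangent p u) (hv : Tangent p v)
    (hw : Tangent p w) (huv : Tangent p (u + v)) : g p w (u + v) = g p w u + g p w v := by
  rw [hg.symm p w (u + v) hw huv, hg.add p u v w hu hv hw, hg.symm p u w hu hw,
    hg.symm p v w hv hw]

theorem smulr (hg : IsMetric g) {p v w : Fin 5 → ℝ} (a : ℝ) (hv : Tangent p v)
    (hw : Tangent p w) (hav : Tangent p (a • v)) : g p w (a • v) = a * g p w v := by
  rw [hg.symm p w (a • v) hw hav, hg.smul p a v w hv hw, hg.symm p v w hv hw]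

theorem cos_ge {a : ℝ} (h : |a| ≤ 2 / 5) : Real.cos (2 / 5) ≤ Real.cos a := by
  rw [← Real.cos_abs a]
  exact Real.cos_le_cos_of_nonneg_of_le_pi (abs_nonneg a)
    (by linarith [Real.pi_gt_three]) h

theorem cos_lt_one {a : ℝ} (h0 : 0 < |a|) (h : |a| ≤ 2 / 5) : Real.cos a < 1 := by
  rw [← Real.cos_abs a, ← Real.cos_zero]
  exact Real.cos_lt_cos_of_nonneg_of_le_pi le_rfl (by linarith [Real.pi_gt_three]) h0

/-- a rotation which fixes a vector: the vector is zero -/
theorem plane {a u v : ℝ} (h0 : 0 < |a|) (h : |a| ≤ 2 / 5)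
    (h1 : Real.cos a * u - Real.sin a * v = u) (h2 : Real.sin a * u + Real.cos a * v = v) :
    u = 0 ∧ v = 0 := by
  have h3 := cos_lt_one h0 h
  have h4 : (1 - Real.cos a) * (u ^ 2 + v ^ 2) = 0 := by
    linear_combination (-u) * h1 + (-v) * h2
  have h5 : u ^ 2 + v ^ 2 = 0 := by
    rcases mul_eq_zero.mp h4 with h6 | h6
    · linarith
    · exact h6
  constructor <;> nlinarith [sq_nonneg u, sq_nonneg v]

theorem rotFix_pole {α β : ℝ} (hg : IsMetric g) (ha0 : 0 < |α|) (ha : |α| ≤ 2 / 5)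
    (hb0 : 0 < |β|) (hb : |β| ≤ 2 / 5) (hi : RotInvariant α β g) (hs : s = 1 ∨ s = -1) :
    RotFix g (circ α β 1) (2 / 5) ![0, 0, 0, 0, s] := by
  set p : Fin 5 → ℝ := ![0, 0, 0, 0, s] with hp
  have ht : ∀ v : Fin 5 → ℝ, Tangent p v ↔ v 4 = 0 := tangent_pole hs
  have hfix : circ α β 1 p = p := by
    rw [hp]
    funext i
    fin_cases i <;> simp [circ]
  refine ⟨onSphere_pole hs, hfix, ?_⟩
  intro v hv hv0
  have hv4 := (ht v).mp hv
  rw [fderiv_circ]
  refine ⟨?_, ?_⟩
  · intro hc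
    apply hv0
    have e0 : Real.cos α * v 0 - Real.sin α * v 1 = v 0 := by
      have := congrFun hc 0
      simpa [circ] using this
    have e1 : Real.sin α * v 0 + Real.cos α * v 1 = v 1 := by
      have := congrFun hc 1
      simpa [circ] using this
    have e2 : Real.cos β * v 2 - Real.sin β * v 3 = v 2 := by
      have := congrFun hc 2
      simpa [circ] using this
    have e3 : Real.sin β * v 2 + Real.cos β * v 3 = v 3 := by
      have := congrFun hc 3
      simpa [circ] using this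
    obtain ⟨f0, f1⟩ := plane ha0 ha e0 e1
    obtain ⟨f2, f3⟩ := plane hb0 hb e2 e3
    funext i
    fin_cases i
    · exact f0
    · exact f1
    · exact f2
    · exact f3
    · exact hv4
  · -- the two parts
    set C := circ α β 1 with hC
    set D := circ (-α) (-β) 1 with hD
    have hCD : ∀ x, C (D x) = x := fun x => circ_inv α β x
    have hC4 : ∀ x, C x 4 = x 4 := fun x => by simp [hC, circ]
    have hD4 : ∀ x, D x 4 = x 4 := fun x => by simp [hD, circ]
    have inv : ∀ x y : Fin 5 → ℝ, x 4 = 0 → y 4 = 0 → g p (C x) (C y) = g p x y := by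
      intro x y hx hy
      have := hi p x y ((ht x).mpr hx) ((ht y).mpr hy)
      rw [← hC, hfix] at this
      exact this
    -- adjoints
    have adj1 : ∀ x y : Fin 5 → ℝ, x 4 = 0 → y 4 = 0 → g p x (C y) = g p (D x) y := by
      intro x y hx hy
      have := inv (D x) y (by rw [hD4, hx]) hy
      rw [hCD] at this
      exact this
    have adj2 : ∀ x y : Fin 5 → ℝ, x 4 = 0 → y 4 = 0 → g p x (D y) = g p (C x) y := by
      intro x y hx hy
      have := inv x (D y) hx (by rw [hD4, hy])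
      rw [hCD] at this
      exact this.symm
    set v1 : Fin 5 → ℝ := ![v 0, v 1, 0, 0, 0] with hv1
    set v2 : Fin 5 → ℝ := ![0, 0, v 2, v 3, 0] with hv2
    have hv14 : v1 4 = 0 := by simp [hv1]
    have hv24 : v2 4 = 0 := by simp [hv2]
    have hsum : v = v1 + v2 := by
      funext i
      fin_cases i <;> simp [hv1, hv2, hv4]
    have S1 : C v1 + D v1 = (2 * Real.cos α) • v1 := by
      funext i
      fin_cases i <;> simp [hC, hD, hv1, circ] <;> ring
    have S2 : C v2 + D v2 = (2 * Real.cos β) • v2 := by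
      funext i
      fin_cases i <;> simp [hC, hD, hv2, circ] <;> ring
    have T : ∀ {x : Fin 5 → ℝ}, x 4 = 0 → Tangent p x := fun h => (ht _).mpr h
    have ga : ∀ x y z : Fin 5 → ℝ, x 4 = 0 → y 4 = 0 → z 4 = 0 →
        g p z (x + y) = g p z x + g p z y := fun x y z hx hy hz =>
      addr hg (T hx) (T hy) (T hz) (T (by rw [Pi.add_apply, hx, hy, add_zero]))
    have gm' : ∀ (a : ℝ) (x z : Fin 5 → ℝ), x 4 = 0 → z 4 = 0 →
        g p z (a • x) = a * g p z x := fun a x z hx hz =>
      smulr hg a (T hx) (T hz) (T (by rw [Pi.smul_apply, hx, smul_zero]))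
    have gs : ∀ x y : Fin 5 → ℝ, x 4 = 0 → y 4 = 0 → g p x y = g p y x := fun x y hx hy =>
      hg.symm p x y (T hx) (T hy)
    have hC0 : ∀ {x : Fin 5 → ℝ}, x 4 = 0 → C x 4 = 0 := fun h => by rw [hC4, h]
    have hD0 : ∀ {x : Fin 5 → ℝ}, x 4 = 0 → D x 4 = 0 := fun h => by rw [hD4, h]
    -- `B(x, C x) = B(x, D x)` etc.
    have q1 : 2 * g p v1 (C v1) = 2 * Real.cos α * g p v1 v1 := by
      have e1 : g p v1 (C v1) = g p v1 (D v1) := by
        rw [adj1 v1 v1 hv14 hv14, gs (D v1) v1 (hD0 hv14) hv14]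
      have e2 := ga (C v1) (D v1) v1 (hC0 hv14) (hD0 hv14) hv14
      rw [S1, gm' _ _ _ hv14 hv14] at e2
      linarith
    have q2 : 2 * g p v2 (C v2) = 2 * Real.cos β * g p v2 v2 := by
      have e1 : g p v2 (C v2) = g p v2 (D v2) := by
        rw [adj1 v2 v2 hv24 hv24, gs (D v2) v2 (hD0 hv24) hv24]
      have e2 := ga (C v2) (D v2) v2 (hC0 hv24) (hD0 hv24) hv24
      rw [S2, gm' _ _ _ hv24 hv24] at e2
      linarith
    -- cross terms
    have q3 : g p v1 (C v2) + g p v1 (D v2) = 2 * Real.cos β * g p v1 v2 := by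
      have e2 := ga (C v2) (D v2) v1 (hC0 hv24) (hD0 hv24) hv14
      rw [S2, gm' _ _ _ hv24 hv14] at e2
      linarith
    have q4 : g p v2 (C v1) + g p v2 (D v1) = 2 * Real.cos α * g p v1 v2 := by
      have e2 := ga (C v1) (D v1) v2 (hC0 hv14) (hD0 hv14) hv24
      rw [S1, gm' _ _ _ hv14 hv24, gs v2 v1 hv24 hv14] at e2
      linarith
    have q5 : g p v1 (C v2) = g p v2 (D v1) := by
      rw [adj1 v1 v2 hv14 hv24, gs (D v1) v2 (hD0 hv14) hv24]
    have q6 : g p v1 (D v2) = g p v2 (C v1) := by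
      rw [adj2 v1 v2 hv14 hv24, gs (C v1) v2 (hC0 hv14) hv24]
    have q7 : (Real.cos α - Real.cos β) * g p v1 v2 = 0 := by
      linarith
    have hCv : C v = C v1 + C v2 := by
      rw [hC, ← circ_add, ← hsum]
    have r1 : g p v (C v) = g p v1 (C v1) + g p v1 (C v2) + (g p v2 (C v1) + g p v2 (C v2)) := by
      rw [hCv, ga (C v1) (C v2) v (hC0 hv14) (hC0 hv24) hv4]
      rw [gs v (C v1) hv4 (hC0 hv14), gs v (C v2) hv4 (hC0 hv24), hsum,
        ga v1 v2 (C v1) hv14 hv24 (hC0 hv14), ga v1 v2 (C v2) hv14 hv24 (hC0 hv24),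
        gs (C v1) v1 (hC0 hv14) hv14, gs (C v1) v2 (hC0 hv14) hv24,
        gs (C v2) v1 (hC0 hv24) hv14, gs (C v2) v2 (hC0 hv24) hv24]
      ring
    have r2 : g p v v = g p v1 v1 + 2 * g p v1 v2 + g p v2 v2 := by
      have e1 : g p v v = g p (v1 + v2) (v1 + v2) := by rw [← hsum]
      have hs4 : (v1 + v2) 4 = 0 := by rw [Pi.add_apply, hv14, hv24, add_zero]
      rw [e1, ga v1 v2 (v1 + v2) hv14 hv24 hs4, gs (v1 + v2) v1 hs4 hv14,
        gs (v1 + v2) v2 hs4 hv24, ga v1 v2 v1 hv14 hv24 hv14, ga v1 v2 v2 hv14 hv24 hv24,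
        gs v2 v1 hv24 hv14]
      ring
    have r3 : g p v (C v) = Real.cos α * g p v1 v1 + (Real.cos α + Real.cos β) * g p v1 v2 +
        Real.cos β * g p v2 v2 := by
      rw [r1]
      linarith
    have pos : ∀ x : Fin 5 → ℝ, x 4 = 0 → 0 ≤ g p x x := by
      intro x hx
      by_cases h0 : x = 0
      · have := gm' 0 x x hx hx
        rw [zero_smul, zero_mul] at this
        rw [h0] at this ⊢
        rw [this]
      · exact (hg.pos p x (T hx) h0).le
    have k1 := cos_ge ha
    have k2 := cos_ge hb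
    have p0 := pos v hv4
    have p1 := pos v1 hv14
    have p2 := pos v2 hv24
    rw [r3]
    rcases mul_eq_zero.mp q7 with h | h
    · have hab : Real.cos β = Real.cos α := by linarith
      rw [hab]
      have e : Real.cos α * g p v1 v1 + (Real.cos α + Real.cos α) * g p v1 v2 +
          Real.cos α * g p v2 v2 = Real.cos α * g p v v := by
        rw [r2]
        ring
      rw [e]
      exact mul_le_mul_of_nonneg_right k1 p0
    · rw [r2, h]
      nlinarith [mul_le_mul_of_nonneg_right k1 p1, mul_le_mul_of_nonneg_right k2 p2]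

end pole

/-- **YRO** -/
theorem yro : YroStatement := by
  intro g α β hg ha0 ha hb0 hb hi
  exact ⟨iso_circ hi, rotFix_pole hg ha0 ha hb0 hb hi (Or.inl rfl),
    rotFix_pole hg ha0 ha hb0 hb hi (Or.inr rfl)⟩

end Pool.Agent.ZRT.H81
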