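import Pool.Agent.ZRT.StmtsB

noncomputable section

open scoped ContDiff Topology RealInnerProductSpace
open Set MeasureTheory

namespace Pool.Agent.ZRT.H81

open Pool.Agent.ZRT Pool.Agent.RF Pool.Agent.MVS

theorem om_of_norm {x : E5} (h : ‖x‖ = 1) : x ∈ Om (Fin 5) := by
  intro h0
  rw [h0, norm_zero] at h
  norm_num at h

theorem mai (hXB1 : Xb1Statement) (hXIS : XisStatement) (hCOR : CorStatement)
    (hMNA : MnaStatement) : MaiStatement := by
  intro G ex f hg hf p q hpq hp hq hS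
  have hC := hg.cyl
  have hE := hg.exp
  have hpO : p ∈ Om (Fin 5) := om_of_norm hp.1
  have hqO : q ∈ Om (Fin 5) := om_of_norm hq.1
  obtain ⟨a, v, ha, hv0, hvpi, hb, hmin⟩ := hMNA G ex hC hE p hpO q hqO hpq hS
  have hRa : RotFixC G f (2 / 5) a := by
    rcases ha with h | h
    · rw [h]; exact hp
    · rw [h]; exact hq
  have haO : a ∈ Om (Fin 5) := om_of_norm hRa.1
  have hRb : RotFixC G f (2 / 5) (ex (a, v)) := by
    rcases hb with h | h
    · rw [h]; exact hp
    · rw [h]; exact hq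
  have hbO : ex (a, v) ∈ Om (Fin 5) := om_of_norm hRb.1
  -- `v` is tangential
  have hav : ⟪a, v⟫ = (0 : ℝ) := by
    have h1 := (hXB1 G ex hC hE a haO).2.2.2.2.2 v
    rw [hRb.1, hRa.1, one_mul, one_pow, div_one] at h1
    exact Real.exp_eq_one_iff _ |>.mp h1.symm
  have hvne : v ≠ 0 := by
    intro h0
    rw [h0] at hv0
    unfold nm at hv0
    simp at hv0
  have hGv : 0 < G a v v := hC.metric.pos a haO v hvne
  obtain ⟨L, hL⟩ : ∃ L, L = nm G a v := ⟨_, rfl⟩
  have hL0 : 0 < L := by rw [hL]; exact hv0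
  have hL2 : G a v v = L ^ 2 := by
    rw [hL]
    unfold nm
    rw [Real.sq_sqrt hGv.le]
  obtain ⟨u, hu⟩ : ∃ u, u = L⁻¹ • v := ⟨_, rfl⟩
  have hLu : L • u = v := by
    rw [hu, smul_smul, mul_inv_cancel₀ hL0.ne', one_smul]
  have huu : G a u u = 1 := by
    rw [hu]
    simp only [map_smul, ContinuousLinearMap.smul_apply, smul_eq_mul]
    rw [hL2]
    field_simp
  have hau : ⟪a, u⟫ = (0 : ℝ) := by
    rw [hu, inner_smul_right, hav, mul_zero]
  have hune : u ≠ 0 := by
    intro h0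
    rw [h0] at huu
    simp at huu
  obtain ⟨z, hz⟩ : ∃ z, z = fderiv ℝ f a u := ⟨_, rfl⟩
  have hzz : G a z z = 1 := by
    have h1 := hf.pres a haO u u
    rw [hRa.2.1, huu] at h1
    rw [hz]
    exact h1
  obtain ⟨hAne, hcos⟩ := hRa.2.2 u hau hune
  rw [huu, mul_one, ← hz] at hcos
  rw [← hz] at hAne
  have hsym : G a z u = G a u z := hC.metric.symm a haO _ _
  obtain ⟨c, hc⟩ : ∃ c, c = G a u z := ⟨_, rfl⟩
  have hc1 : c < 1 := by
    have h1 := hC.metric.pos a haO (z - u) (sub_ne_zero.mpr hAne)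
    simp only [map_sub, ContinuousLinearMap.sub_apply] at h1
    rw [hsym, huu, hzz, ← hc] at h1
    linarith
  have hpi := Real.pi_gt_three
  have hcm : -1 ≤ c := by
    rw [hc]
    exact le_trans (Real.neg_one_le_cos _) hcos
  obtain ⟨w, hw⟩ : ∃ w, w = Real.arccos c := ⟨_, rfl⟩
  have hcw : Real.cos w = c := by rw [hw]; exact Real.cos_arccos hcm hc1.le
  have hw0 : 0 < w := by rw [hw]; exact Real.arccos_pos.mpr hc1
  have hw1 : w ≤ 2 / 5 := by
    have h1 : Real.arccos (Real.cos (2 / 5)) = 2 / 5 :=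
      Real.arccos_cos (by norm_num) (by linarith)
    rw [hw, ← h1]
    exact Real.arccos_le_arccos (by rw [hc]; exact hcos)
  have hsin : 0 < Real.sin w := Real.sin_pos_of_pos_of_lt_pi hw0 (by linarith)
  have hs2 : Real.sin w ^ 2 = 1 - c ^ 2 := by
    rw [← hcw]
    have := Real.sin_sq_add_cos_sq w
    linarith
  obtain ⟨n, hn⟩ : ∃ n, n = (Real.sin w)⁻¹ • (z - c • u) := ⟨_, rfl⟩
  have hzU : z = Un u n w := by
    unfold Un
    rw [hn, smul_smul, mul_inv_cancel₀ hsin.ne', one_smul, hcw]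
    abel
  have hun : G a u n = 0 := by
    rw [hn]
    simp only [map_smul, map_sub, smul_eq_mul]
    rw [huu, ← hc]
    ring
  have hnn : G a n n = 1 := by
    rw [hn]
    simp only [map_smul, map_sub, ContinuousLinearMap.smul_apply, ContinuousLinearMap.sub_apply,
      smul_eq_mul]
    rw [huu, hsym, hzz, ← hc]
    have h2 : (Real.sin w)⁻¹ * ((Real.sin w)⁻¹ * (1 - c * c) - c * ((Real.sin w)⁻¹ * (c - c * 1))) =
        (1 - c ^ 2) / Real.sin w ^ 2 := by
      field_simp
      ring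
    rw [h2, hs2]
    exact div_self (by rw [← hs2]; positivity)
  have hstop : ex (a, L • Un u n w) = ex (a, v) := by
    have h1 := hXIS G ex f hC hE hf a haO v
    rw [hRb.2.1, hRa.2.1] at h1
    have h2 : fderiv ℝ f a v = L • z := by
      rw [← hLu, map_smul, hz]
    rw [h2, hzU] at h1
    exact h1.symm
  refine hCOR G ex a (ex (a, v)) u n L w
    ⟨hg, haO, hbO, huu, hnn, hun, hL0, by rw [hL]; exact hvpi, hw0, hw1, by rw [hLu], hstop, ?_⟩
  intro y hy hlt
  by_contra hne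
  have hy0 : 0 < nm G (ex (a, v)) y := Real.sqrt_pos.mpr (hC.metric.pos _ hbO y hne)
  have h1 := hmin (ex (a, v)) y hb hy0 (by rw [hy]; exact hb)
  rw [← hL] at h1
  linarith

end Pool.Agent.ZRT.H81
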